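import Pool.Agent.Helper71.BM.Basic

/-!
# Transversals of pairwise intersecting long cycles: module LNKS, the links through a ladder
-/

set_option autoImplicit false

namespace Pool.Agent.Helper71.BM

open Finset ErdPos

/-! ### the rows of a web -/

theorem lnks_row_split {V : Type} (R : ℕ → ℕ → List V) (a i k : ℕ) :
    row R (i + (k + 2)) a = ((List.range i).map (R a)).flatten ++
      (R a i ++ (R a (i + 1) ++ ((List.range k).map (fun j => R a (i + (j + 2)))).flatten)) := by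
  unfold row
  rw [List.range_add, List.map_append, List.flatten_append, List.map_map]
  congr 1
  rw [List.range_succ_eq_map, List.map_cons, List.flatten_cons, List.map_map,
    List.range_succ_eq_map, List.map_cons, List.flatten_cons, List.map_map]
  simp only [Function.comp_def, Nat.add_zero, Nat.succ_eq_add_one, Nat.zero_add]

theorem lnks_row_split1 {V : Type} (R : ℕ → ℕ → List V) (a i k : ℕ) :
    row R (i + (k + 1)) a = ((List.range i).map (R a)).flatten ++
      (R a i ++ ((List.range k).map (fun j => R a (i + (j + 1)))).flatten) := by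
  unfold row
  rw [List.range_add, List.map_append, List.flatten_append, List.map_map]
  congr 1
  rw [List.range_succ_eq_map, List.map_cons, List.flatten_cons, List.map_map]
  simp only [Function.comp_def, Nat.add_zero, Nat.succ_eq_add_one]

theorem lnks_mem_row {V : Type} {R : ℕ → ℕ → List V} {d a i : ℕ} (hi : i < d) {v : V}
    (hv : v ∈ R a i) : v ∈ row R d a := by
  unfold row
  rw [List.mem_flatten]
  exact ⟨R a i, List.mem_map.2 ⟨i, List.mem_range.2 hi, rfl⟩, hv⟩

section
variable {V : Type} [DecidableEq V] {G : SimpleGraph V} {h d : ℕ} {R : ℕ → ℕ → List V}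
  {U : ℕ → Finset V}

theorem lnks_seg (hW : Web G h d R U) {a i : ℕ} (ha : a < h) (hi : i < d) :
    Conn G (R a i).toFinset := by
  refine conn_of_chain (hW.ne a ha i hi) ?_
  obtain ⟨k, rfl⟩ : ∃ k, d = i + (k + 1) := ⟨d - i - 1, by omega⟩
  have h1 := hW.chain a ha
  rw [lnks_row_split1] at h1
  exact h1.right_of_append.left_of_append

theorem lnks_adj (hW : Web G h d R U) {a i : ℕ} (ha : a < h) (hi : i + 1 < d) {x y : V}
    (hx : (R a i).getLast? = some x) (hy : (R a (i + 1)).head? = some y) : G.Adj x y := by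
  obtain ⟨k, rfl⟩ : ∃ k, d = i + (k + 2) := ⟨d - i - 2, by omega⟩
  have h1 := hW.chain a ha
  rw [lnks_row_split] at h1
  have h2 := h1.right_of_append
  rw [List.isChain_append] at h2
  refine h2.2.2 x hx y ?_
  rw [List.head?_append, hy]
  rfl

/-- consecutive segments of a row -/
def lnks_rp (R : ℕ → ℕ → List V) (a m k : ℕ) : Finset V :=
  (range k).biUnion (fun i => (R a (m + i)).toFinset)

theorem lnks_mem_rp {a m k : ℕ} {v : V} :
    v ∈ lnks_rp R a m k ↔ ∃ i < k, v ∈ R a (m + i) := by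
  unfold lnks_rp
  simp

theorem lnks_rp_conn (hW : Web G h d R U) {a m : ℕ} (ha : a < h) :
    ∀ k, m + (k + 1) ≤ d → Conn G (lnks_rp R a m (k + 1)) := by
  intro k
  induction k with
  | zero =>
    intro hk
    have h1 : lnks_rp R a m (0 + 1) = (R a m).toFinset := by
      unfold lnks_rp
      simp
    rw [h1]
    exact lnks_seg hW ha (by omega)
  | succ k ih =>
    intro hk
    have h1 := ih (by omega)
    have h2 := lnks_seg hW ha (i := m + (k + 1)) (by omega)
    have h3 : lnks_rp R a m (k + 1 + 1) =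
        lnks_rp R a m (k + 1) ∪ (R a (m + (k + 1))).toFinset := by
      unfold lnks_rp
      rw [Finset.range_add_one, Finset.biUnion_insert, Finset.union_comm]
    rw [h3]
    refine h1.union h2 (Or.inl ?_)
    have hne1 := hW.ne a ha (m + k) (by omega)
    have hne2 := hW.ne a ha (m + (k + 1)) (by omega)
    obtain ⟨x, hx⟩ : ∃ x, (R a (m + k)).getLast? = some x :=
      ⟨_, List.getLast?_eq_some_getLast hne1⟩
    obtain ⟨y, hy⟩ : ∃ y, (R a (m + (k + 1))).head? = some y := ⟨_, List.head?_eq_some_head hne2⟩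
    refine ⟨x, ?_, y, ?_, lnks_adj hW ha (i := m + k) (by omega) hx hy⟩
    · rw [lnks_mem_rp]
      exact ⟨k, by omega, List.mem_of_getLast? hx⟩
    · rw [List.mem_toFinset]
      exact List.mem_of_head? hy

/-- the last vertex before the segments can be added -/
theorem lnks_rpt_conn (hW : Web G h d R U) {a m k : ℕ} (ha : a < h) (hm : 1 ≤ m)
    (hk : m + (k + 1) ≤ d) {t : V} (ht : (R a (m - 1)).getLast? = some t) :
    Conn G (insert t (lnks_rp R a m (k + 1))) := by
  have h1 := lnks_rp_conn hW ha k hk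
  have hne2 := hW.ne a ha m (by omega)
  obtain ⟨y, hy⟩ : ∃ y, (R a m).head? = some y := ⟨_, List.head?_eq_some_head hne2⟩
  have h2 : G.Adj t y := by
    have h3 : m - 1 + 1 = m := by omega
    refine lnks_adj hW ha (i := m - 1) (by omega) ht ?_
    rw [h3]
    exact hy
  refine h1.insert (a := y) ?_ h2.symm
  rw [lnks_mem_rp]
  exact ⟨0, by omega, List.mem_of_head? hy⟩

end

/-! ### indices -/

/-- the segments used by the link from `a` to `a + N` -/
def lnks_Ir (c a N y j : ℕ) : Prop :=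
  (y = a ∧ j ≤ c) ∨ (y = a + N ∧ j < c + N) ∨
    ∃ n, 0 < n ∧ n < N ∧ y = a + n ∧ (j + 1 = c + n ∨ j = c + n)

/-- the code of a link -/
def lnks_c (r a N : ℕ) : ℕ := (N * r + a) * r

theorem lnks_code {r a N a' N' : ℕ} (ha : a < r) (ha' : a' < r) {u u' : ℕ} (hu : u < r)
    (hu' : u' < r) (h : lnks_c r a N + u = lnks_c r a' N' + u') : a = a' := by
  unfold lnks_c at h
  have hr : 0 < r := by omega
  have h1 : (N * r + a) = (N' * r + a') := by
    have h2 : ((N * r + a) * r + u) / r = ((N' * r + a') * r + u') / r := by rw [h]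
    rw [Nat.add_comm ((N * r + a) * r) u, Nat.add_comm ((N' * r + a') * r) u',
      Nat.add_mul_div_right _ _ hr, Nat.add_mul_div_right _ _ hr, Nat.div_eq_of_lt hu,
      Nat.div_eq_of_lt hu'] at h2
    omega
  have h3 : (N * r + a) % r = (N' * r + a') % r := by rw [h1]
  rw [Nat.add_comm (N * r) a, Nat.add_comm (N' * r) a', Nat.add_mul_mod_self_right,
    Nat.add_mul_mod_self_right, Nat.mod_eq_of_lt ha, Nat.mod_eq_of_lt ha'] at h3
  exact h3

theorem lnks_code_lt {r a N a' N' : ℕ} (ha : a < r) (hN : N < N') :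
    lnks_c r a N + r ≤ lnks_c r a' N' := by
  unfold lnks_c
  have h1 : N * r + a + 1 ≤ N' * r + a' := by
    have h2 : (N + 1) * r ≤ N' * r := Nat.mul_le_mul_right r hN
    have h3 : (N + 1) * r = N * r + r := by ring
    omega
  have h4 : (N * r + a + 1) * r ≤ (N' * r + a') * r := Nat.mul_le_mul_right r h1
  have h5 : (N * r + a + 1) * r = (N * r + a) * r + r := by ring
  omega

theorem lnks_code_le {r a N : ℕ} (hN : a + N < r) : lnks_c r a N + N ≤ r ^ 3 := by
  unfold lnks_c
  obtain ⟨e, rfl⟩ : ∃ e, r = a + N + 1 + e := ⟨r - (a + N + 1), by omega⟩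
  nlinarith [Nat.zero_le (a * N), Nat.zero_le (a * e), Nat.zero_le (N * e), Nat.zero_le (a * a),
    Nat.zero_le (N * N), Nat.zero_le (e * e), Nat.zero_le (a * a * a), Nat.zero_le (a * a * N),
    Nat.zero_le (a * N * N), Nat.zero_le (N * N * N), Nat.zero_le (a * e * e),
    Nat.zero_le (N * e * e), Nat.zero_le (e * e * e), Nat.zero_le (a * a * e),
    Nat.zero_le (N * N * e), Nat.zero_le (a * N * e)]

theorem lnks_disj_aux {r a N a' N' : ℕ} (hN : 0 < N) (hN' : 0 < N') (hr : a + N < r)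
    (hr' : a' + N' < r) (h1 : a ≠ a') (h2 : a ≠ a' + N') (h3 : a + N ≠ a')
    (h4 : a + N ≠ a' + N') (hc1 : ¬ (a < a' ∧ a' < a + N ∧ a + N < a' + N'))
    (hc2 : ¬ (a' < a ∧ a < a' + N' ∧ a' + N' < a + N)) {y j : ℕ}
    (h : lnks_Ir (lnks_c r a N) a N y j) (h' : lnks_Ir (lnks_c r a' N') a' N' y j) : False := by
  have hin1 : a' < a → a + N < a' + N' → lnks_c r a N + r ≤ lnks_c r a' N' := fun g1 g2 =>
    lnks_code_lt (by omega) (by omega)
  have hin2 : a < a' → a' + N' < a + N → lnks_c r a' N' + r ≤ lnks_c r a N := fun g1 g2 =>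
    lnks_code_lt (by omega) (by omega)
  rcases h with ⟨e1, e2⟩ | ⟨e1, e2⟩ | ⟨n, e1, e2, e3, e4⟩ <;>
    rcases h' with ⟨f1, f2⟩ | ⟨f1, f2⟩ | ⟨n', f1, f2, f3, f4⟩
  · omega
  · omega
  · have := hin1 (by omega) (by omega)
    omega
  · omega
  · omega
  · have := hin1 (by omega) (by omega)
    omega
  · have := hin2 (by omega) (by omega)
    omega
  · have := hin2 (by omega) (by omega)
    omega
  · have g : lnks_c r a N + (j - lnks_c r a N) = lnks_c r a' N' + (j - lnks_c r a' N') := by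
      omega
    exact h1 (lnks_code (by omega) (by omega) (by omega) (by omega) g)

/-! ### one link -/

section
variable {V : Type} [DecidableEq V] {G : SimpleGraph V} {r d : ℕ} {R : ℕ → ℕ → List V}
  {U : ℕ → Finset V} {Q : ℕ → ℕ → List V}

/-- the vertices allowed for a link -/
def lnks_ok (R Q : ℕ → ℕ → List V) (j0 c a N : ℕ) (ta tb v : V) : Prop :=
  v = ta ∨ v = tb ∨ (∃ y j, lnks_Ir c a N y j ∧ v ∈ R (y + 1) (j0 + j)) ∨
    ∃ n < N, v ∈ Q (a + n + 1) (j0 + (c + n))

theorem lnks_piece (hL : Lad G (r + 1) d R U Q) {s j : ℕ} (hs : s + 1 < r + 1) (hj : j < d) :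
    ∃ x ∈ R s j, ∃ y ∈ R (s + 1) j, ∃ P : Finset V, Conn G P ∧ x ∈ P ∧ y ∈ P ∧
      ∀ v ∈ P, v = x ∨ v = y ∨ v ∈ Q s j := by
  obtain ⟨x, hx, y, hy, hP⟩ := hL.qc s hs j hj
  refine ⟨x, hx, y, hy, _, hP.conn, ?_, ?_, ?_⟩
  · rw [List.mem_toFinset]
    exact hP.head_mem
  · rw [List.mem_toFinset]
    exact hP.last_mem
  · intro v hv
    rw [List.mem_toFinset] at hv
    simp at hv
    tauto

theorem lnks_stairs (hL : Lad G (r + 1) d R U Q) {j0 c a N : ℕ} (hj : 1 ≤ j0)
    (hN : a + N < r) (hd : j0 + (c + N) ≤ d) {ta tb : V}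
    (hta : (R (a + 1) (j0 - 1)).getLast? = some ta) :
    ∀ n, n < N → ∃ Z : Finset V, Conn G Z ∧ ta ∈ Z ∧ (∀ v ∈ R (a + n + 1) (j0 + (c + n)), v ∈ Z) ∧
      ∀ v ∈ Z, lnks_ok R Q j0 c a N ta tb v := by
  intro n
  induction n with
  | zero =>
    intro hn
    refine ⟨_, lnks_rpt_conn hL.web (a := a + 1) (m := j0) (k := c) (by omega) hj (by omega) hta,
      mem_insert_self _ _, ?_, ?_⟩
    · intro v hv
      refine mem_insert_of_mem ?_
      rw [lnks_mem_rp]
      exact ⟨c, by omega, hv⟩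
    · intro v hv
      rcases mem_insert.1 hv with h | h
      · exact Or.inl h
      · rw [lnks_mem_rp] at h
        obtain ⟨i, hi, hvi⟩ := h
        exact Or.inr (Or.inr (Or.inl ⟨a, i, Or.inl ⟨rfl, by omega⟩, hvi⟩))
  | succ n ih =>
    intro hn
    obtain ⟨Z, hZ1, hZ2, hZ3, hZ4⟩ := ih (by omega)
    obtain ⟨x, hx, y, hy, P, hP1, hP2, hP3, hP4⟩ :=
      lnks_piece hL (s := a + n + 1) (j := j0 + (c + n)) (by omega) (by omega)
    have hR := lnks_rp_conn hL.web (a := a + (n + 1) + 1) (m := j0 + (c + n)) (by omega) 1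
      (by omega)
    have hyR : y ∈ lnks_rp R (a + (n + 1) + 1) (j0 + (c + n)) (1 + 1) := by
      rw [lnks_mem_rp]
      exact ⟨0, by omega, hy⟩
    have h1 := (hZ1.union_of_mem hP1 (hZ3 x hx) hP2).union_of_mem hR
      (mem_union_right _ hP3) hyR
    have hRok : ∀ v ∈ lnks_rp R (a + (n + 1) + 1) (j0 + (c + n)) (1 + 1),
        lnks_ok R Q j0 c a N ta tb v := by
      intro v hv
      rw [lnks_mem_rp] at hv
      obtain ⟨i, hi, hvi⟩ := hv
      refine Or.inr (Or.inr (Or.inl ⟨a + (n + 1), c + n + i, Or.inr (Or.inr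
        ⟨n + 1, by omega, hn, rfl, by omega⟩), ?_⟩))
      have h2 : j0 + (c + n + i) = j0 + (c + n) + i := by omega
      rw [h2]
      exact hvi
    refine ⟨_, h1, mem_union_left _ (mem_union_left _ hZ2), ?_, ?_⟩
    · intro v hv
      refine mem_union_right _ ?_
      rw [lnks_mem_rp]
      refine ⟨1, by omega, ?_⟩
      have h2 : j0 + (c + n) + 1 = j0 + (c + (n + 1)) := by omega
      rw [h2]
      exact hv
    · intro v hv
      rcases mem_union.1 hv with hv | hv
      · rcases mem_union.1 hv with hv | hv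
        · exact hZ4 v hv
        · rcases hP4 v hv with rfl | rfl | hq
          · exact hZ4 _ (hZ3 _ hx)
          · exact hRok _ hyR
          · exact Or.inr (Or.inr (Or.inr ⟨n, by omega, hq⟩))
      · exact hRok v hv

theorem lnks_one (hL : Lad G (r + 1) d R U Q) {j0 c a N : ℕ} (hj : 1 ≤ j0) (h0 : 0 < N)
    (hN : a + N < r) (hd : j0 + (c + N) ≤ d) {ta tb : V}
    (hta : (R (a + 1) (j0 - 1)).getLast? = some ta)
    (htb : (R (a + N + 1) (j0 - 1)).getLast? = some tb) :
    ∃ Z : Finset V, Conn G Z ∧ ta ∈ Z ∧ tb ∈ Z ∧ ∀ v ∈ Z, lnks_ok R Q j0 c a N ta tb v := by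
  obtain ⟨n, rfl⟩ : ∃ n, N = n + 1 := ⟨N - 1, by omega⟩
  obtain ⟨Z, hZ1, hZ2, hZ3, hZ4⟩ := lnks_stairs (N := n + 1) (tb := tb) hL hj hN hd hta n
    (by omega)
  obtain ⟨x, hx, y, hy, P, hP1, hP2, hP3, hP4⟩ :=
    lnks_piece hL (s := a + n + 1) (j := j0 + (c + n)) (by omega) (by omega)
  have hR := lnks_rpt_conn hL.web (a := a + (n + 1) + 1) (m := j0) (k := c + n) (by omega) hj
    (by omega) htb
  have hyR : y ∈ insert tb (lnks_rp R (a + (n + 1) + 1) j0 (c + n + 1)) := by
    refine mem_insert_of_mem ?_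
    rw [lnks_mem_rp]
    exact ⟨c + n, by omega, hy⟩
  have hRok : ∀ v ∈ insert tb (lnks_rp R (a + (n + 1) + 1) j0 (c + n + 1)),
      lnks_ok R Q j0 c a (n + 1) ta tb v := by
    intro v hv
    rcases mem_insert.1 hv with h | h
    · exact Or.inr (Or.inl h)
    · rw [lnks_mem_rp] at h
      obtain ⟨i, hi, hvi⟩ := h
      exact Or.inr (Or.inr (Or.inl ⟨a + (n + 1), i, Or.inr (Or.inl ⟨rfl, by omega⟩), hvi⟩))
  have h1 := (hZ1.union_of_mem hP1 (hZ3 x hx) hP2).union_of_mem hR
    (mem_union_right _ hP3) hyR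
  refine ⟨_, h1, mem_union_left _ (mem_union_left _ hZ2),
    mem_union_right _ (mem_insert_self _ _), ?_⟩
  intro v hv
  rcases mem_union.1 hv with hv | hv
  · rcases mem_union.1 hv with hv | hv
    · exact hZ4 v hv
    · rcases hP4 v hv with rfl | rfl | hq
      · exact hZ4 _ (hZ3 _ hx)
      · exact hRok _ hyR
      · exact Or.inr (Or.inr (Or.inr ⟨n, by omega, hq⟩))
  · exact hRok v hv

/-! ### disjointness -/

theorem lnks_col (hL : Lad G (r + 1) d R U Q) {i j : ℕ} (hi : i < d) (hj : j < d) {v : V}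
    (h : v ∈ U i) (h' : v ∈ U j) : i = j := by
  by_contra hne
  exact Finset.disjoint_left.1 (hL.web.udj i hi j hj hne) h h'

theorem lnks_rowe (hL : Lad G (r + 1) d R U Q) {a b i j : ℕ} (ha : a < r + 1) (hb : b < r + 1)
    (hi : i < d) (hj : j < d) {v : V} (h : v ∈ R a i) (h' : v ∈ R b j) : a = b := by
  by_contra hne
  exact hL.web.dj a ha b hb hne (lnks_mem_row hi h) (lnks_mem_row hj h')

theorem lnks_Ir_lt {c a N y j : ℕ} (h : lnks_Ir c a N y j) (h0 : 0 < N) :
    y ≤ a + N ∧ j < c + N := by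
  rcases h with h | h | ⟨n, h⟩ <;> omega

theorem lnks_sep (hL : Lad G (r + 1) d R U Q) {j0 a N a' N' : ℕ} (hj : 1 ≤ j0)
    (hN : 0 < N) (hN' : 0 < N') (hr : a + N < r) (hr' : a' + N' < r) (hd : j0 + (r ^ 3 + r) ≤ d)
    (h1 : a ≠ a') (h2 : a ≠ a' + N') (h3 : a + N ≠ a')
    (h4 : a + N ≠ a' + N') (hc1 : ¬ (a < a' ∧ a' < a + N ∧ a + N < a' + N'))
    (hc2 : ¬ (a' < a ∧ a < a' + N' ∧ a' + N' < a + N)) {ta tb ta' tb' : V}
    (hta : ta ∈ R (a + 1) (j0 - 1)) (htb : tb ∈ R (a + N + 1) (j0 - 1))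
    (hta' : ta' ∈ R (a' + 1) (j0 - 1)) (htb' : tb' ∈ R (a' + N' + 1) (j0 - 1)) {v : V}
    (hv : lnks_ok R Q j0 (lnks_c r a N) a N ta tb v)
    (hv' : lnks_ok R Q j0 (lnks_c r a' N') a' N' ta' tb' v) : False := by
  have hcl := lnks_code_le hr
  have hcl' := lnks_code_le hr'
  -- the three kinds of vertices
  have key : ∀ {a N : ℕ} {ta tb : V}, 0 < N → a + N < r → lnks_c r a N + N ≤ r ^ 3 →
      ta ∈ R (a + 1) (j0 - 1) → tb ∈ R (a + N + 1) (j0 - 1) →
      lnks_ok R Q j0 (lnks_c r a N) a N ta tb v →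
      (∃ y, (y = a ∨ y = a + N) ∧ v ∈ R (y + 1) (j0 - 1)) ∨
      (∃ y j, y < r ∧ j < r ^ 3 ∧ lnks_Ir (lnks_c r a N) a N y j ∧ v ∈ R (y + 1) (j0 + j)) ∨
      ∃ n < N, v ∈ Q (a + n + 1) (j0 + (lnks_c r a N + n)) := by
    intro a N ta tb g0 g1 g2 g3 g4 g5
    rcases g5 with rfl | rfl | ⟨y, j, g6, g7⟩ | g6
    · exact Or.inl ⟨a, Or.inl rfl, g3⟩
    · exact Or.inl ⟨a + N, Or.inr rfl, g4⟩
    · have := lnks_Ir_lt g6 g0
      exact Or.inr (Or.inl ⟨y, j, by omega, by omega, g6, g7⟩)
    · exact Or.inr (Or.inr g6)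
  have k1 := key hN hr hcl hta htb hv
  have k2 := key hN' hr' hcl' hta' htb' hv'
  have hcolR : ∀ {y j : ℕ}, y < r → j < d → v ∈ R (y + 1) j → v ∈ U j := fun g1 g2 g3 =>
    hL.web.mem _ (by omega) _ g2 _ g3
  rcases k1 with ⟨y, e1, e2⟩ | ⟨y, j, e1, e2, e3, e4⟩ | ⟨n, e1, e2⟩ <;>
    rcases k2 with ⟨y', f1, f2⟩ | ⟨y', j', f1, f2, f3, f4⟩ | ⟨n', f1, f2⟩
  · have := lnks_rowe hL (by omega) (by omega) (by omega) (by omega) e2 f2
    omega
  · have g1 := hcolR (by omega) (by omega) e2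
    have g2 := hcolR (by omega) (by omega) f4
    have := lnks_col hL (by omega) (by omega) g1 g2
    omega
  · have g1 := hcolR (by omega) (by omega) e2
    have g2 := hL.qu _ (by omega) _ (by omega) _ f2
    have := lnks_col hL (by omega) (by omega) g1 g2
    omega
  · have g1 := hcolR (by omega) (by omega) e4
    have g2 := hcolR (by omega) (by omega) f2
    have := lnks_col hL (by omega) (by omega) g1 g2
    omega
  · have g1 := hcolR (by omega) (by omega) e4
    have g2 := hcolR (by omega) (by omega) f4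
    have g3 := lnks_col hL (by omega) (by omega) g1 g2
    have g4 := lnks_rowe hL (by omega) (by omega) (by omega) (by omega) e4 f4
    have g5 : j = j' := by omega
    have g6 : y = y' := by omega
    subst g5
    subst g6
    exact lnks_disj_aux hN hN' hr hr' h1 h2 h3 h4 hc1 hc2 e3 f3
  · exact hL.qr _ (by omega) _ (by omega) _ f2 (y + 1) (by omega)
      (lnks_mem_row (by omega) e4)
  · have g1 := hcolR (by omega) (by omega) f2
    have g2 := hL.qu _ (by omega) _ (by omega) _ e2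
    have := lnks_col hL (by omega) (by omega) g1 g2
    omega
  · exact hL.qr _ (by omega) _ (by omega) _ e2 (y' + 1) (by omega)
      (lnks_mem_row (by omega) f4)
  · have g1 := hL.qu _ (by omega) _ (by omega) _ e2
    have g2 := hL.qu _ (by omega) _ (by omega) _ f2
    have g3 := lnks_col hL (by omega) (by omega) g1 g2
    have g4 : lnks_c r a N + n = lnks_c r a' N' + n' := by omega
    exact h1 (lnks_code (by omega) (by omega) (by omega) (by omega) g4)

end

theorem lnks_mem_wset {V : Type} [DecidableEq V] {R Q : ℕ → ℕ → List V} {r j0 l : ℕ} {v : V} :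
    v ∈ wset R Q r j0 l ↔ (∃ j < l, ∃ s < r, v ∈ R (s + 1) (j0 + j)) ∨
      ∃ j < l, ∃ s < r - 1, v ∈ Q (s + 1) (j0 + j) := by
  unfold wset
  simp only [mem_biUnion, mem_union, mem_range, List.mem_toFinset]
  constructor
  · rintro ⟨j, hj, ⟨s, hs, hv⟩ | ⟨s, hs, hv⟩⟩
    · exact Or.inl ⟨j, hj, s, hs, hv⟩
    · exact Or.inr ⟨j, hj, s, hs, hv⟩
  · rintro (⟨j, hj, s, hs, hv⟩ | ⟨j, hj, s, hs, hv⟩)
    · exact ⟨j, hj, Or.inl ⟨s, hs, hv⟩⟩
    · exact ⟨j, hj, Or.inr ⟨s, hs, hv⟩⟩

theorem st_LNKS : ST_LNKS := by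
  intro V _ _ G r d j0 R U Q t hL hj hd ht
  have htm : ∀ i < r, t i ∈ R (i + 1) (j0 - 1) := fun i hi => List.mem_of_getLast? (ht i hi)
  have hinj : ∀ i < r, ∀ j < r, t i = t j → i = j := by
    intro i hi j hj' hij
    have h1 := htm i hi
    rw [hij] at h1
    have := lnks_rowe hL (by omega) (by omega) (by omega) (by omega) h1 (htm j hj')
    omega
  refine ⟨hinj, ?_, ?_⟩
  · intro i hi hw
    have h1 := hL.web.mem (i + 1) (by omega) (j0 - 1) (by omega) _ (htm i hi)
    rw [lnks_mem_wset] at hw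
    rcases hw with ⟨j, hj', s, hs, hv⟩ | ⟨j, hj', s, hs, hv⟩
    · have h2 := hL.web.mem (s + 1) (by omega) (j0 + j) (by omega) _ hv
      have := lnks_col hL (by omega) (by omega) h1 h2
      omega
    · have h2 := hL.qu (s + 1) (by omega) (j0 + j) (by omega) _ hv
      have := lnks_col hL (by omega) (by omega) h1 h2
      omega
  · intro μ hμ hμr
    have key : ∀ p : ℕ × ℕ, ∃ Z : Finset V, p ∈ μ →
        Conn G Z ∧ t (min p.1 p.2) ∈ Z ∧ t (max p.1 p.2) ∈ Z ∧
        ∀ v ∈ Z, lnks_ok R Q j0 (lnks_c r (min p.1 p.2) (max p.1 p.2 - min p.1 p.2))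
          (min p.1 p.2) (max p.1 p.2 - min p.1 p.2) (t (min p.1 p.2)) (t (max p.1 p.2)) v := by
      intro p
      by_cases hp : p ∈ μ
      · have h1 := hμ.1 p hp
        have h2 := hμr p hp
        have h3 : min p.1 p.2 + (max p.1 p.2 - min p.1 p.2) = max p.1 p.2 := by omega
        have h4 := lnks_code_le (r := r) (a := min p.1 p.2) (N := max p.1 p.2 - min p.1 p.2)
          (by omega)
        obtain ⟨Z, hZ⟩ := lnks_one (c := lnks_c r (min p.1 p.2) (max p.1 p.2 - min p.1 p.2)) hL hj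
          (a := min p.1 p.2) (N := max p.1 p.2 - min p.1 p.2) (by omega) (by omega) (by omega)
          (ht _ (by omega)) (by rw [h3]; exact ht _ (by omega))
        exact ⟨Z, fun _ => hZ⟩
      · exact ⟨∅, fun h => absurd h hp⟩
    choose Z hZ using key
    refine ⟨Z, ?_, ?_⟩
    · intro p hp
      obtain ⟨g1, g2, g3, g4⟩ := hZ p hp
      have h1 := hμ.1 p hp
      have h2 := hμr p hp
      have hends : t p.1 ∈ Z p ∧ t p.2 ∈ Z p := by
        rcases le_total p.1 p.2 with h | h
        · rw [min_eq_left h] at g2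
          rw [max_eq_right h] at g3
          exact ⟨g2, g3⟩
        · rw [min_eq_right h] at g2
          rw [max_eq_left h] at g3
          exact ⟨g3, g2⟩
      refine ⟨g1, hends.1, hends.2, ?_⟩
      intro v hv
      have h4 := lnks_code_le (r := r) (a := min p.1 p.2) (N := max p.1 p.2 - min p.1 p.2)
        (by omega)
      rcases g4 v hv with h | h | ⟨y, j, h5, h6⟩ | ⟨n, h5, h6⟩
      · rcases le_total p.1 p.2 with h' | h'
        · rw [min_eq_left h'] at h
          exact Or.inr (Or.inl h)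
        · rw [min_eq_right h'] at h
          exact Or.inr (Or.inr h)
      · rcases le_total p.1 p.2 with h' | h'
        · rw [max_eq_right h'] at h
          exact Or.inr (Or.inr h)
        · rw [max_eq_left h'] at h
          exact Or.inr (Or.inl h)
      · have h7 := lnks_Ir_lt h5 (by omega)
        refine Or.inl (lnks_mem_wset.2 (Or.inl ⟨j, by omega, y, by omega, h6⟩))
      · refine Or.inl (lnks_mem_wset.2 (Or.inr ⟨_, ?_, min p.1 p.2 + n, ?_, h6⟩))
        · omega
        · omega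
    · intro p hp p' hp' hne
      have hnc : NCr p p' := by
        have : Std.Symm NCr := ⟨fun _ _ h => NCr.symm h⟩
        exact List.Pairwise.forall hμ.2 hp hp' hne
      obtain ⟨⟨n1, n2, n3, n4⟩, n5, n6⟩ := hnc
      have h1 := hμ.1 p hp
      have h2 := hμr p hp
      have h1' := hμ.1 p' hp'
      have h2' := hμr p' hp'
      obtain ⟨-, -, -, g4⟩ := hZ p hp
      obtain ⟨-, -, -, g4'⟩ := hZ p' hp'
      rw [Finset.disjoint_left]
      intro v hv hv'
      refine lnks_sep hL hj (by omega) (by omega) (by omega) (by omega) hd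
        (a := min p.1 p.2) (N := max p.1 p.2 - min p.1 p.2) (a' := min p'.1 p'.2)
        (N' := max p'.1 p'.2 - min p'.1 p'.2) ?_ ?_ ?_ ?_ ?_ ?_
        (htm (min p.1 p.2) (by omega)) ?_ (htm (min p'.1 p'.2) (by omega)) ?_ (g4 v hv) (g4' v hv')
      · omega
      · omega
      · omega
      · omega
      · omega
      · omega
      · have h3 : min p.1 p.2 + (max p.1 p.2 - min p.1 p.2) = max p.1 p.2 := by omega
        rw [h3]
        exact htm _ (by omega)
      · have h3 : min p'.1 p'.2 + (max p'.1 p'.2 - min p'.1 p'.2) = max p'.1 p'.2 := by omega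
        rw [h3]
        exact htm _ (by omega)

end Pool.Agent.Helper71.BM
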