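import Pool.Agent.Helper71.BM.Basic

/-!
# Transversals of pairwise intersecting long cycles: module MESH, existence of meshes
-/

set_option autoImplicit false

namespace Pool.Agent.Helper71.BM

open Finset ErdPos

/-! ### consecutive vertices of disjoint lists -/

section
variable {V : Type}

/-- the vertices following `v` -/
def mesh_su (P : List (List V)) (v : V) : Set V :=
  {w | ∃ l ∈ P, ∃ l1 l2 : List V, l = l1 ++ v :: w :: l2}

/-- the vertices preceding `v` -/
def mesh_pr (P : List (List V)) (v : V) : Set V :=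
  {w | ∃ l ∈ P, ∃ l1 l2 : List V, l = l1 ++ w :: v :: l2}

theorem mesh_inj {l1 l2 m1 m2 : List V} {v : V} (hn : (l1 ++ v :: l2).Nodup)
    (h : l1 ++ v :: l2 = m1 ++ v :: m2) : l1 = m1 ∧ l2 = m2 := by
  have h1 : v ∉ l1 := by
    rw [List.nodup_append] at hn
    intro hv
    exact hn.2.2 v hv v (by simp) rfl
  have h2 : v ∉ l2 := by
    rw [List.nodup_append] at hn
    exact (List.nodup_cons.1 hn.2.1).1
  obtain ⟨a, -, b⟩ := (List.append_cons_inj_of_notMem h1 h2).1 h
  exact ⟨a, b⟩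

theorem mesh_su_sub {P : List (List V)} (hP : P.flatten.Nodup) (v : V) :
    ∀ x ∈ mesh_su P v, ∀ y ∈ mesh_su P v, x = y := by
  rintro x ⟨l, hl, l1, l2, h1⟩ y ⟨l', hl', m1, m2, h2⟩
  have h3 : l = l' := eq_of_mem_flatten hP hl hl' (v := v) (by rw [h1]; simp) (by rw [h2]; simp)
  have h4 : (l1 ++ v :: (x :: l2)).Nodup := by
    rw [← h1]
    exact nodup_of_mem_flatten hP hl
  have h5 := (mesh_inj h4 (m1 := m1) (m2 := y :: m2) (by rw [← h1, ← h2, h3])).2
  simpa using (List.cons.inj h5).1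

theorem mesh_pr_sub {P : List (List V)} (hP : P.flatten.Nodup) (v : V) :
    ∀ x ∈ mesh_pr P v, ∀ y ∈ mesh_pr P v, x = y := by
  rintro x ⟨l, hl, l1, l2, h1⟩ y ⟨l', hl', m1, m2, h2⟩
  have h3 : l = l' := eq_of_mem_flatten hP hl hl' (v := v) (by rw [h1]; simp) (by rw [h2]; simp)
  have e1 : l = (l1 ++ [x]) ++ v :: l2 := by rw [h1]; simp
  have e2 : l' = (m1 ++ [y]) ++ v :: m2 := by rw [h2]; simp
  have h4 : ((l1 ++ [x]) ++ v :: l2).Nodup := by
    rw [← e1]
    exact nodup_of_mem_flatten hP hl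
  have h5 := (mesh_inj h4 (m1 := m1 ++ [y]) (m2 := m2) (by rw [← e1, ← e2, h3])).1
  have h6 := congrArg List.getLast? h5
  simpa using h6

theorem mesh_pr_head {P : List (List V)} (hP : P.flatten.Nodup) {l : List V} (hl : l ∈ P)
    {v : V} (hv : l.head? = some v) : mesh_pr P v = ∅ := by
  rw [Set.eq_empty_iff_forall_notMem]
  rintro x ⟨l', hl', m1, m2, h2⟩
  have h3 : l = l' := eq_of_mem_flatten hP hl hl' (v := v) (List.mem_of_head? hv)
    (by rw [h2]; simp)
  have h4 := nodup_of_mem_flatten hP hl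
  rw [h3, h2] at h4
  rw [h3, h2] at hv
  cases m1 with
  | nil =>
    simp at hv
    subst hv
    simp at h4
  | cons z m1 =>
    simp at hv
    subst hv
    simp at h4

theorem mesh_su_last {P : List (List V)} (hP : P.flatten.Nodup) {l : List V} (hl : l ∈ P)
    {v : V} (hv : l.getLast? = some v) : mesh_su P v = ∅ := by
  rw [Set.eq_empty_iff_forall_notMem]
  rintro x ⟨l', hl', m1, m2, h2⟩
  have h3 : l = l' := eq_of_mem_flatten hP hl hl' (v := v) (List.mem_of_getLast? hv)
    (by rw [h2]; simp)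
  have h4 := nodup_of_mem_flatten hP hl
  have h5 : (x :: m2).getLast? = some v := by
    rw [h3, h2] at hv
    have h6 : m1 ++ v :: x :: m2 = (m1 ++ [v]) ++ (x :: m2) := by simp
    rw [h6, List.getLast?_append] at hv
    rw [← hv]
    cases h7 : (x :: m2).getLast? with
    | none => simp at h7
    | some z => rfl
  have h8 : v ∈ x :: m2 := List.mem_of_getLast? h5
  rw [h3, h2, List.nodup_append] at h4
  exact (List.nodup_cons.1 h4.2.1).1 h8

theorem mesh_not {P : List (List V)} {v : V} (hv : ∀ l ∈ P, v ∉ l) :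
    mesh_su P v = ∅ ∧ mesh_pr P v = ∅ := by
  constructor
  · rw [Set.eq_empty_iff_forall_notMem]
    rintro x ⟨l', hl', m1, m2, h2⟩
    exact hv l' hl' (by rw [h2]; simp)
  · rw [Set.eq_empty_iff_forall_notMem]
    rintro x ⟨l', hl', m1, m2, h2⟩
    exact hv l' hl' (by rw [h2]; simp)

theorem mesh_edge_iff {P : List (List V)} {u v : V} :
    EdgeIn P u v ↔ v ∈ mesh_su P u ∨ v ∈ mesh_pr P u := by
  constructor
  · rintro ⟨l, hl, l1, l2, h | h⟩
    · exact Or.inl ⟨l, hl, l1, l2, h⟩
    · exact Or.inr ⟨l, hl, l1, l2, h⟩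
  · rintro (⟨l, hl, l1, l2, h⟩ | ⟨l, hl, l1, l2, h⟩)
    · exact ⟨l, hl, l1, l2, Or.inl h⟩
    · exact ⟨l, hl, l1, l2, Or.inr h⟩

theorem mesh_edge_symm {P : List (List V)} {u v : V} (h : EdgeIn P u v) : EdgeIn P v u := by
  obtain ⟨l, hl, l1, l2, h | h⟩ := h
  · exact ⟨l, hl, l1, l2, Or.inr h⟩
  · exact ⟨l, hl, l1, l2, Or.inl h⟩

theorem mesh_edge_mem {P : List (List V)} {u v : V} (h : EdgeIn P u v) :
    (∃ l ∈ P, u ∈ l) ∧ ∃ l ∈ P, v ∈ l := by
  obtain ⟨l, hl, l1, l2, h | h⟩ := h
  · exact ⟨⟨l, hl, by rw [h]; simp⟩, ⟨l, hl, by rw [h]; simp⟩⟩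
  · exact ⟨⟨l, hl, by rw [h]; simp⟩, ⟨l, hl, by rw [h]; simp⟩⟩

/-- the graph `H` with the edges of the lists -/
def mesh_H (H : SimpleGraph V) (P : List (List V)) (hP : ∀ l ∈ P, l.Nodup) : SimpleGraph V where
  Adj u v := H.Adj u v ∨ EdgeIn P u v
  symm := by
    constructor
    rintro u v (h | h)
    · exact Or.inl h.symm
    · exact Or.inr (mesh_edge_symm h)
  loopless := by
    constructor
    rintro u (h | ⟨l, hl, l1, l2, h | h⟩)
    · exact H.loopless.irrefl _ h
    · have h1 := hP l hl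
      rw [h, List.nodup_append] at h1
      exact (List.nodup_cons.1 h1.2.1).1 (by simp)
    · have h1 := hP l hl
      rw [h, List.nodup_append] at h1
      exact (List.nodup_cons.1 h1.2.1).1 (by simp)

theorem mesh_chain {P : List (List V)} {l : List V} (hl : l ∈ P) :
    ∀ l2 l1 : List V, l = l1 ++ l2 → l2.IsChain (EdgeIn P) := by
  intro l2
  induction l2 with
  | nil => intro l1 h; exact List.isChain_nil
  | cons x l2 ih =>
    intro l1 h
    cases l2 with
    | nil => exact List.isChain_singleton _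
    | cons y l2 =>
      rw [List.isChain_cons_cons]
      refine ⟨⟨l, hl, l1, l2, Or.inl h⟩, ih (l1 ++ [x]) ?_⟩
      rw [h]
      simp

theorem mesh_edge_adj {G : SimpleGraph V} {P : List (List V)} (hP : ∀ l ∈ P, l.IsChain G.Adj)
    {u v : V} (h : EdgeIn P u v) : G.Adj u v := by
  obtain ⟨l, hl, l1, l2, h | h⟩ := h
  · have h1 := hP l hl
    rw [h] at h1
    exact (List.isChain_cons_cons.1 h1.right_of_append).1
  · have h1 := hP l hl
    rw [h] at h1
    exact (List.isChain_cons_cons.1 h1.right_of_append).1.symm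

end

section
variable {V : Type} [DecidableEq V]

theorem mesh_conn_mono {G H : SimpleGraph V} (h : H ≤ G) {A : Finset V} (hA : Conn H A) :
    Conn G A := by
  refine ⟨hA.1, fun B hB hne hne' => ?_⟩
  obtain ⟨a, ha, b, hb, hab⟩ := hA.2 B hB hne hne'
  exact ⟨a, ha, b, hb, h hab⟩

/-- adding lists starting in a connected set -/
theorem mesh_conn_lists {G : SimpleGraph V} {A : Finset V} (hA : Conn G A) :
    ∀ P : List (List V), (∀ l ∈ P, l.IsChain G.Adj ∧ ∃ a ∈ A, a ∈ l) →
      Conn G (A ∪ P.flatten.toFinset) := by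
  intro P
  induction P with
  | nil => intro _; simpa using hA
  | cons l P ih =>
    intro h
    have h1 := ih (fun l' hl' => h l' (List.mem_cons_of_mem _ hl'))
    obtain ⟨h2, a, ha, hal⟩ := h l (by simp)
    have hne : l ≠ [] := by
      rintro rfl
      simp at hal
    have h3 : Conn G l.toFinset := conn_of_chain hne h2
    have h4 := h1.union_of_mem h3 (mem_union_left _ ha) (by simpa using hal)
    have h5 : A ∪ (l :: P).flatten.toFinset = A ∪ P.flatten.toFinset ∪ l.toFinset := by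
      ext v
      simp only [mem_union, List.mem_toFinset, List.flatten_cons, List.mem_append]
      tauto
    rw [h5]
    exact h4

end

/-! ### the candidates -/

/-- the candidates -/
structure mesh_T {V : Type} [Fintype V] [DecidableEq V] (G : SimpleGraph V)
    (F : Finset V → Prop) (m : ℕ) (C A : Finset V) (H : SimpleGraph V) : Prop where
  big : Big G F univ C
  card : (Nb G univ C).card ≤ m
  sub : Nb G univ C ⊆ A
  dj : Disjoint A C
  le : H ≤ G
  inA : ∀ u v, H.Adj u v → u ∈ A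
  conn : Conn H A
  deg : ∀ v ∈ A, (H.neighborSet v).ncard ≤ 3
  deg2 : ∀ v ∈ Nb G univ C, (H.neighborSet v).ncard ≤ 2
  deg1 : ∃ v ∈ Nb G univ C, (H.neighborSet v).ncard ≤ 1

section
variable {V : Type} [Fintype V] [DecidableEq V] {G : SimpleGraph V} {F : Finset V → Prop} {m : ℕ}

theorem mesh_start (hm : 1 ≤ m) (hH : Hav G F univ (2 * m)) : ∃ C A H, mesh_T G F m C A H := by
  have h0 := hH.isBt (Z := ∅) (by simp)
  obtain ⟨v, hv⟩ := h0.2.1.1
  have h1 := hH.isBt (Z := {v}) (by rw [card_singleton]; omega)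
  have h2 : bt G F univ {v} ⊆ bt G F univ ∅ := bt_anti hH (empty_subset _)
    (by rw [card_singleton]; omega)
  have hvn : v ∉ bt G F univ {v} := fun h => (mem_sdiff.1 (h1.1 h)).2 (mem_singleton_self v)
  have hne : bt G F univ {v} ≠ bt G F univ ∅ := fun h => hvn (h ▸ hv)
  obtain ⟨x, hx, y, hy, hxy⟩ := h0.2.1.2 _ h2 h1.2.1.1 hne
  rw [mem_sdiff] at hy
  have hyN : y ∈ Nb G univ (bt G F univ {v}) := mem_Nb.2 ⟨mem_univ _, hy.2, x, hx, hxy.symm⟩
  have hN := h1.Nb_subset
  have hyv : y = v := mem_singleton.1 (hN hyN)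
  have hd : ∀ w : V, ((⊥ : SimpleGraph V).neighborSet w).ncard = 0 := by
    intro w
    have : (⊥ : SimpleGraph V).neighborSet w = ∅ := by
      ext z
      simp
    rw [this, Set.ncard_empty]
  refine ⟨_, {v}, ⊥, ⟨h1.big, ?_, hN, ?_, bot_le, ?_, conn_singleton v, ?_, ?_, ?_⟩⟩
  · have := card_le_card hN
    rw [card_singleton] at this
    omega
  · rw [Finset.disjoint_singleton_left]
    exact hvn
  · intro u w h
    exact absurd h (by simp)
  · intro w _
    rw [hd]
    omega
  · intro w _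
    rw [hd]
    omega
  · exact ⟨y, hyN, by rw [hd]; omega⟩

theorem mesh_step1 (hH : Hav G F univ (2 * m)) {C A : Finset V} {H : SimpleGraph V}
    (hT : mesh_T G F m C A H) (hlt : (Nb G univ C).card < m) :
    ∃ C' A' H', mesh_T G F m C' A' H' ∧ C'.card < C.card := by
  obtain ⟨u, hu, hu1⟩ := hT.deg1
  obtain ⟨-, huC, c, hc, huc⟩ := mem_Nb.1 hu
  have hcA : c ∉ A := fun h => Finset.disjoint_left.1 hT.dj h hc
  have hcN : c ∉ Nb G univ C := fun h => (mem_Nb.1 h).2.1 hc
  have hcard : (insert c (Nb G univ C)).card ≤ m := by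
    rw [card_insert_of_notMem hcN]
    omega
  have hb := hH.isBt (Z := insert c (Nb G univ C)) (by omega)
  have hbC := Big.isBt hH hT.big (by omega)
  have h1 : bt G F univ (insert c (Nb G univ C)) ⊆ C := by
    have h := bt_anti hH (subset_insert c (Nb G univ C)) (by omega)
    rwa [hbC.eq_bt] at h
  set C' := bt G F univ (insert c (Nb G univ C)) with hC'
  have hcC' : c ∉ C' := fun h => (mem_sdiff.1 (hb.1 h)).2 (mem_insert_self _ _)
  have hne : C' ≠ C := fun h => hcC' (h ▸ hc)
  have hNs := hb.Nb_subset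
  obtain ⟨x, hx, y, hy, hxy⟩ := hT.big.2.1.2 C' h1 hb.2.1.1 hne
  rw [mem_sdiff] at hy
  have hyN : y ∈ Nb G univ C' := mem_Nb.2 ⟨mem_univ _, hy.2, x, hx, hxy.symm⟩
  have hyc : y = c := by
    rcases mem_insert.1 (hNs hyN) with h | h
    · exact h
    · exact absurd hy.1 (mem_Nb.1 h).2.1
  rw [hyc] at hyN
  have huA : u ∈ A := hT.sub hu
  have huc' : u ≠ c := fun h => hcA (h ▸ huA)
  let H' : SimpleGraph V := H ⊔ SimpleGraph.edge u c
  have hH'adj : ∀ a b, H'.Adj a b ↔ H.Adj a b ∨ (a = u ∧ b = c) ∨ (a = c ∧ b = u) := by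
    intro a b
    simp only [H', SimpleGraph.sup_adj, SimpleGraph.edge_adj]
    constructor
    · rintro (h | ⟨⟨h1, h2⟩ | ⟨h1, h2⟩, h3⟩)
      · exact Or.inl h
      · exact Or.inr (Or.inl ⟨h1, h2⟩)
      · exact Or.inr (Or.inr ⟨h1, h2⟩)
    · rintro (h | ⟨h1, h2⟩ | ⟨h1, h2⟩)
      · exact Or.inl h
      · exact Or.inr ⟨Or.inl ⟨h1, h2⟩, by rw [h1, h2]; exact huc'⟩
      · exact Or.inr ⟨Or.inr ⟨h1, h2⟩, by rw [h1, h2]; exact huc'.symm⟩
  have hnu : (H'.neighborSet u).ncard ≤ 2 := by
    have h2 : H'.neighborSet u ⊆ H.neighborSet u ∪ {c} := by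
      intro w hw
      rw [SimpleGraph.mem_neighborSet, hH'adj] at hw
      rcases hw with h | ⟨_, h⟩ | ⟨h, _⟩
      · exact Or.inl h
      · exact Or.inr h
      · exact absurd h huc'
    have h3 := Set.ncard_le_ncard h2 (Set.toFinite _)
    have h4 := Set.ncard_union_le (H.neighborSet u) {c}
    rw [Set.ncard_singleton] at h4
    omega
  have hnc : (H'.neighborSet c).ncard ≤ 1 := by
    have h2 : H'.neighborSet c ⊆ {u} := by
      intro w hw
      rw [SimpleGraph.mem_neighborSet, hH'adj] at hw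
      rcases hw with h | ⟨h, _⟩ | ⟨_, h⟩
      · exact absurd (hT.inA _ _ h) hcA
      · exact absurd h.symm huc'
      · exact h
    have h3 := Set.ncard_le_ncard h2 (Set.toFinite _)
    rw [Set.ncard_singleton] at h3
    exact h3
  have hno : ∀ w, w ≠ u → w ≠ c → H'.neighborSet w = H.neighborSet w := by
    intro w h1 h2
    ext z
    rw [SimpleGraph.mem_neighborSet, hH'adj, SimpleGraph.mem_neighborSet]
    tauto
  refine ⟨C', insert c A, H', ⟨hb.big, ?_, ?_, ?_, ?_, ?_, ?_, ?_, ?_, ⟨c, hyN, hnc⟩⟩, ?_⟩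
  · exact (card_le_card hNs).trans hcard
  · exact hNs.trans (insert_subset_insert _ hT.sub)
  · rw [Finset.disjoint_insert_left]
    exact ⟨hcC', Finset.disjoint_of_subset_right h1 hT.dj⟩
  · intro a b hab
    rw [hH'adj] at hab
    rcases hab with h | ⟨rfl, rfl⟩ | ⟨rfl, rfl⟩
    · exact hT.le h
    · exact huc
    · exact huc.symm
  · intro a b hab
    rw [hH'adj] at hab
    rcases hab with h | ⟨rfl, rfl⟩ | ⟨rfl, rfl⟩
    · exact mem_insert_of_mem (hT.inA _ _ h)
    · exact mem_insert_of_mem huA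
    · exact mem_insert_self _ _
  · have h2 : Conn H' A := mesh_conn_mono (fun a b hab => (hH'adj a b).2 (Or.inl hab)) hT.conn
    exact h2.insert huA ((hH'adj u c).2 (Or.inr (Or.inl ⟨rfl, rfl⟩)))
  · intro w hw
    by_cases h2 : w = u
    · rw [h2]; omega
    · by_cases h3 : w = c
      · rw [h3]; omega
      · rw [hno w h2 h3]
        rcases mem_insert.1 hw with h | h
        · exact absurd h h3
        · exact hT.deg w h
  · intro w hw
    by_cases h2 : w = u
    · rw [h2]; omega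
    · by_cases h3 : w = c
      · rw [h3]; omega
      · rw [hno w h2 h3]
        rcases mem_insert.1 (hNs hw) with h | h
        · exact absurd h h3
        · exact hT.deg2 w h
  · exact card_lt_card ⟨h1, fun h => hne (subset_antisymm h1 h)⟩

/-- linkage to a big subset with the least number of neighbours -/
theorem mesh_nosep (hH : Hav G F univ (2 * m)) {C C' : Finset V}
    (hC' : Big G F univ C') (hs : C' ⊆ C) (hm : (Nb G univ C').card ≤ 2 * m)
    (hmin : ∀ D, Big G F univ D → D ⊆ C → (Nb G univ C').card ≤ (Nb G univ D).card) :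
    NoSep G ((C \ C') ∪ Nb G univ C) (Nb G univ C) (Nb G univ C') (Nb G univ C').card := by
  intro S hS
  set K := (C \ C') ∪ Nb G univ C with hK
  have hKC' : Disjoint C' K := by
    rw [Finset.disjoint_left]
    intro v hv hvK
    rcases mem_union.1 hvK with h | h
    · exact (mem_sdiff.1 h).2 hv
    · exact (mem_Nb.1 h).2.1 (hs hv)
  have hS' : (S ∩ K).card ≤ S.card := card_le_card inter_subset_left
  have hb := hH.isBt (Z := S ∩ K) (by omega)
  have h1 : C' ⊆ bt G F univ (S ∩ K) := Big.subset_bt hH hC' (by omega)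
    (Finset.disjoint_of_subset_right inter_subset_right hKC')
  have h2 : ¬ bt G F univ (S ∩ K) ⊆ C := by
    intro h
    have h3 := hmin _ hb.big h
    have h4 := card_le_card hb.Nb_subset
    omega
  rw [Finset.not_subset] at h2
  obtain ⟨z, hz, hzC⟩ := h2
  obtain ⟨c0, hc0⟩ := hC'.2.1.1
  obtain ⟨a, ha, b, hb', l, hl, haZ, hbZ, hint⟩ := exists_PL_between (A := C') (B := univ \ C)
    hb.2.1 ⟨c0, mem_inter.2 ⟨hc0, h1 hc0⟩⟩
    ⟨z, mem_inter.2 ⟨mem_sdiff.2 ⟨mem_univ _, hzC⟩, hz⟩⟩
    (by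
      rw [Finset.disjoint_left]
      intro v hv hv'
      exact (mem_sdiff.1 hv').2 (hs hv))
  have hbC : b ∉ C := (mem_sdiff.1 hb').2
  have havoid : ∀ v ∈ bt G F univ (S ∩ K), v ∈ K → v ∉ S := by
    intro v hv hvK hvS
    exact (mem_sdiff.1 (hb.1 hv)).2 (mem_inter.2 ⟨hvS, hvK⟩)
  cases l with
  | nil =>
    have hab : G.Adj a b := by
      have := hl.2.2.2
      simpa using this
    have hbN : b ∈ Nb G univ C := mem_Nb.2 ⟨mem_univ _, hbC, a, hs ha, hab.symm⟩
    have hbN' : b ∈ Nb G univ C' := mem_Nb.2 ⟨mem_univ _, fun h => hbC (hs h), a, ha, hab.symm⟩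
    refine ⟨b, hbN, b, hbN', [b], PL.single b, ?_⟩
    intro v hv
    rw [List.mem_singleton] at hv
    subst hv
    have hvK : v ∈ K := mem_union_right _ hbN
    exact ⟨hvK, havoid _ hbZ hvK⟩
  | cons x l =>
    have h3 : PL G x b (x :: (l ++ [b])) := by
      have h4 : a :: (x :: l) ++ [b] = [a] ++ x :: (l ++ [b]) := by simp
      rw [h4] at hl
      exact hl.right
    have hax : G.Adj a x := by
      have := hl.2.2.2
      simp only [List.cons_append, List.isChain_cons_cons] at this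
      exact this.1
    obtain ⟨hxZ, hxC', hxC⟩ := hint x (by simp)
    have hxN : x ∈ Nb G univ C' := mem_Nb.2 ⟨mem_univ _, hxC', a, ha, hax.symm⟩
    have hintC : ∀ v ∈ x :: l, v ∈ C \ C' := by
      intro v hv
      obtain ⟨_, h5, h6⟩ := hint v hv
      refine mem_sdiff.2 ⟨?_, h5⟩
      by_contra h7
      exact h6 (mem_sdiff.2 ⟨mem_univ _, h7⟩)
    have hbN : b ∈ Nb G univ C := by
      obtain ⟨y, hy⟩ : ∃ y, (x :: l).getLast? = some y :=
        ⟨_, List.getLast?_eq_some_getLast (by simp)⟩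
      have hyb : G.Adj y b := by
        have h4 := h3.2.2.2
        have h5 : x :: (l ++ [b]) = (x :: l) ++ [b] := by simp
        rw [h5, List.isChain_append] at h4
        exact h4.2.2 y hy b (by simp)
      exact mem_Nb.2 ⟨mem_univ _, hbC, y, (mem_sdiff.1 (hintC y (List.mem_of_getLast? hy))).1,
        hyb.symm⟩
    refine ⟨b, hbN, x, hxN, _, h3.reverse, ?_⟩
    intro v hv
    have hv' : v ∈ x :: l ∨ v = b := by
      simp at hv ⊢
      tauto
    rcases hv' with hv' | rfl
    · have hvK : v ∈ K := mem_union_left _ (hintC v hv')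
      exact ⟨hvK, havoid _ (hint v hv').1 hvK⟩
    · have hvK : v ∈ K := mem_union_right _ hbN
      exact ⟨hvK, havoid _ hbZ hvK⟩

theorem mesh_step2 (hMLP : ST_MLP) (hH : Hav G F univ (2 * m)) {C A : Finset V}
    {H : SimpleGraph V} (hT : mesh_T G F m C A H) (hcm : (Nb G univ C).card = m)
    {D : Finset V} (hD : Big G F univ D) (hDC : D ⊆ C) (hlt : (Nb G univ D).card < m) :
    ∃ C' A' H', mesh_T G F m C' A' H' ∧ C'.card < C.card := by
  classical
  -- the least number of neighbours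
  obtain ⟨C', hC', hs, hmin⟩ : ∃ C', Big G F univ C' ∧ C' ⊆ C ∧
      ∀ D, Big G F univ D → D ⊆ C → (Nb G univ C').card ≤ (Nb G univ D).card := by
    have hne : (C.powerset.filter (fun D => Big G F univ D)).Nonempty :=
      ⟨D, mem_filter.2 ⟨mem_powerset.2 hDC, hD⟩⟩
    obtain ⟨C', hC', hmin⟩ := exists_min_image _ (fun D => (Nb G univ D).card) hne
    rw [mem_filter, mem_powerset] at hC'
    exact ⟨C', hC'.2, hC'.1, fun D h1 h2 => hmin D (mem_filter.2 ⟨mem_powerset.2 h2, h1⟩)⟩
  have hj : (Nb G univ C').card < m := lt_of_le_of_lt (hmin D hD hDC) hlt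
  have hne : C' ≠ C := by
    rintro rfl
    omega
  obtain ⟨P, hP, hPl⟩ := hMLP V G _ _ _ _ (mesh_nosep hH hC' hs (by omega) hmin)
  have hfl := hP.1
  have hnd : ∀ l ∈ P, l.Nodup := fun l hl => nodup_of_mem_flatten hfl hl
  have hch : ∀ l ∈ P, l.IsChain G.Adj := by
    intro l hl
    obtain ⟨_, a, _, b, _, h, _⟩ := hP.2 l hl
    exact h.2.2.2
  -- all neighbours of `C'` are ends of paths
  have hcov : ∀ b ∈ Nb G univ C', ∃ l ∈ P, l.getLast? = some b := by
    have hlast : ∀ l ∈ P, ∃ b, b ∈ Nb G univ C' ∧ l.getLast? = some b := by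
      intro l hl
      obtain ⟨_, a, _, b, hb, h, _⟩ := hP.2 l hl
      exact ⟨b, hb, h.2.1⟩
    have hVne : Nonempty V := ⟨hT.deg1.choose⟩
    choose! f hf using hlast
    have h1 : (P.toFinset.image f).card = P.toFinset.card := by
      apply card_image_of_injOn
      intro l hl l' hl' h
      rw [List.coe_toFinset] at hl hl'
      have e1 := List.mem_of_getLast? (hf l hl).2
      have e2 := List.mem_of_getLast? (hf l' hl').2
      rw [h] at e1
      exact eq_of_mem_flatten hfl hl hl' e1 e2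
    have h2 : P.toFinset.card = P.length := List.toFinset_card_of_nodup hP.nodup
    have h3 : P.toFinset.image f ⊆ Nb G univ C' := by
      intro b hb
      rw [mem_image] at hb
      obtain ⟨l, hl, rfl⟩ := hb
      exact (hf l (List.mem_toFinset.1 hl)).1
    have h4 : P.toFinset.image f = Nb G univ C' := eq_of_subset_of_card_le h3 (by omega)
    intro b hb
    rw [← h4, mem_image] at hb
    obtain ⟨l, hl, rfl⟩ := hb
    exact ⟨l, List.mem_toFinset.1 hl, (hf l (List.mem_toFinset.1 hl)).2⟩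
  let H' := mesh_H H P hnd
  have hH'adj : ∀ a b, H'.Adj a b ↔ H.Adj a b ∨ EdgeIn P a b := fun a b => Iff.rfl
  have hHH' : H ≤ H' := fun a b hab => (hH'adj a b).2 (Or.inl hab)
  have hnb : ∀ v, (H'.neighborSet v).ncard ≤
      (H.neighborSet v).ncard + (mesh_su P v).ncard + (mesh_pr P v).ncard := by
    intro v
    have h1 : H'.neighborSet v ⊆ (H.neighborSet v ∪ mesh_su P v) ∪ mesh_pr P v := by
      intro w hw
      rw [SimpleGraph.mem_neighborSet, hH'adj, mesh_edge_iff] at hw
      rcases hw with h | h | h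
      · exact Or.inl (Or.inl h)
      · exact Or.inl (Or.inr h)
      · exact Or.inr h
    have h2 := Set.ncard_le_ncard h1 (Set.toFinite _)
    have h3 := Set.ncard_union_le (H.neighborSet v ∪ mesh_su P v) (mesh_pr P v)
    have h4 := Set.ncard_union_le (H.neighborSet v) (mesh_su P v)
    omega
  have hsu : ∀ v, (mesh_su P v).ncard ≤ 1 := fun v =>
    (Set.ncard_le_one (Set.toFinite _)).2 (mesh_su_sub hfl v)
  have hpr : ∀ v, (mesh_pr P v).ncard ≤ 1 := fun v =>
    (Set.ncard_le_one (Set.toFinite _)).2 (mesh_pr_sub hfl v)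
  have hK : ∀ l ∈ P, ∀ v ∈ l, (v ∈ C ∧ v ∉ C') ∨ v ∈ Nb G univ C := by
    intro l hl v hv
    rcases mem_union.1 ((hP.2 l hl).1 v hv) with h | h
    · exact Or.inl (mem_sdiff.1 h)
    · exact Or.inr h
  have hnotA : ∀ v, v ∉ A → (H.neighborSet v).ncard = 0 := by
    intro v hv
    have : H.neighborSet v = ∅ := by
      rw [Set.eq_empty_iff_forall_notMem]
      intro w hw
      exact hv (hT.inA _ _ hw)
    rw [this, Set.ncard_empty]
  -- vertices of `Nb C` on a path are first vertices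
  have hfirst : ∀ v ∈ Nb G univ C, (mesh_pr P v).ncard = 0 := by
    intro v hv
    by_cases hon : ∃ l ∈ P, v ∈ l
    · obtain ⟨l, hl, hvl⟩ := hon
      obtain ⟨_, a, _, b, _, h, h1, _⟩ := hP.2 l hl
      have := h1 v hvl hv
      rw [mesh_pr_head hfl hl (v := v) (by rw [this]; exact h.1), Set.ncard_empty]
    · push Not at hon
      rw [(mesh_not hon).2, Set.ncard_empty]
  have hlastv : ∀ v ∈ Nb G univ C', (mesh_su P v).ncard = 0 := by
    intro v hv
    obtain ⟨l, hl, h⟩ := hcov v hv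
    rw [mesh_su_last hfl hl h, Set.ncard_empty]
  have hin : ∀ v ∈ Nb G univ C', v ∉ Nb G univ C → v ∈ C := by
    intro v hv hv'
    obtain ⟨l, hl, h⟩ := hcov v hv
    rcases hK l hl v (List.mem_of_getLast? h) with h1 | h1
    · exact h1.1
    · exact absurd h1 hv'
  have hACs : ∀ v ∈ C, v ∉ A := fun v hv hvA => Finset.disjoint_left.1 hT.dj hvA hv
  have hdeg1 : ∀ v ∈ Nb G univ C', v ∉ Nb G univ C → (H'.neighborSet v).ncard ≤ 1 := by
    intro v hv hv'
    have h1 := hnb v
    have h2 := hnotA v (hACs v (hin v hv hv'))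
    have h3 := hlastv v hv
    have h4 := hpr v
    omega
  obtain ⟨x, hx, y, hy, hxy⟩ := hT.big.2.1.2 C' hs hC'.2.1.1 hne
  rw [mem_sdiff] at hy
  have hyN : y ∈ Nb G univ C' := mem_Nb.2 ⟨mem_univ _, hy.2, x, hx, hxy.symm⟩
  have hyN' : y ∉ Nb G univ C := fun h => (mem_Nb.1 h).2.1 hy.1
  refine ⟨C', A ∪ P.flatten.toFinset, H', ⟨hC', by omega, ?_, ?_, ?_, ?_, ?_, ?_, ?_,
    ⟨y, hyN, hdeg1 y hyN hyN'⟩⟩, card_lt_card ⟨hs, fun h => hne (subset_antisymm hs h)⟩⟩
  · intro v hv
    obtain ⟨l, hl, h⟩ := hcov v hv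
    refine mem_union_right _ ?_
    rw [List.mem_toFinset, List.mem_flatten]
    exact ⟨l, hl, List.mem_of_getLast? h⟩
  · rw [Finset.disjoint_union_left]
    refine ⟨Finset.disjoint_of_subset_right hs hT.dj, ?_⟩
    rw [Finset.disjoint_left]
    intro v hv hvC'
    rw [List.mem_toFinset, List.mem_flatten] at hv
    obtain ⟨l, hl, hvl⟩ := hv
    rcases hK l hl v hvl with h | h
    · exact h.2 hvC'
    · exact (mem_Nb.1 h).2.1 (hs hvC')
  · intro a b hab
    rcases (hH'adj a b).1 hab with h | h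
    · exact hT.le h
    · exact mesh_edge_adj hch h
  · intro a b hab
    rcases (hH'adj a b).1 hab with h | h
    · exact mem_union_left _ (hT.inA _ _ h)
    · refine mem_union_right _ ?_
      obtain ⟨l, hl, hal⟩ := (mesh_edge_mem h).1
      rw [List.mem_toFinset, List.mem_flatten]
      exact ⟨l, hl, hal⟩
  · refine mesh_conn_lists (mesh_conn_mono hHH' hT.conn) P ?_
    intro l hl
    obtain ⟨_, a, ha, b, _, h, _⟩ := hP.2 l hl
    refine ⟨?_, a, hT.sub ha, h.head_mem⟩
    exact (mesh_chain hl l [] rfl).imp (fun u v huv => (hH'adj u v).2 (Or.inr huv))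
  · intro v hv
    have h1 := hnb v
    have h2 := hsu v
    have h3 := hpr v
    by_cases hvN : v ∈ Nb G univ C
    · have h4 := hfirst v hvN
      have h5 := hT.deg2 v hvN
      omega
    · by_cases hvA : v ∈ A
      · have hoff : ∀ l ∈ P, v ∉ l := by
          intro l hl hvl
          rcases hK l hl v hvl with h | h
          · exact hACs v h.1 hvA
          · exact hvN h
        obtain ⟨e1, e2⟩ := mesh_not hoff
        rw [e1, e2, Set.ncard_empty] at h1
        have h5 := hT.deg v hvA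
        omega
      · have h5 := hnotA v hvA
        omega
  · intro v hv
    by_cases hvN : v ∈ Nb G univ C
    · have h1 := hnb v
      have h4 := hfirst v hvN
      have h5 := hT.deg2 v hvN
      have h6 := hlastv v hv
      omega
    · have := hdeg1 v hv hvN
      omega

end

theorem st_MESH (h1 : ST_MLP) : ST_MESH := by
  intro V _ _ G F m hm hH
  classical
  have hex : ∃ n, ∃ C A H, mesh_T G F m C A H ∧ C.card = n := by
    obtain ⟨C, A, H, h⟩ := mesh_start hm hH
    exact ⟨_, C, A, H, h, rfl⟩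
  obtain ⟨C, A, H, hT, hc⟩ := Nat.find_spec hex
  have hmin : ¬ ∃ C' A' H', mesh_T G F m C' A' H' ∧ C'.card < C.card := by
    rintro ⟨C', A', H', h2, h3⟩
    have := Nat.find_min' hex ⟨C', A', H', h2, rfl⟩
    omega
  have hcm : (Nb G univ C).card = m := by
    by_contra hne
    exact hmin (mesh_step1 hH hT (lt_of_le_of_ne hT.card hne))
  refine ⟨C, A, H, ⟨hT.big, hcm, ?_, hT.sub, hT.dj, hT.le, hT.conn, hT.deg⟩⟩
  intro D hD hDC
  by_contra hlt
  rw [not_le] at hlt
  exact hmin (mesh_step2 h1 hH hT hcm hD hDC hlt)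

end Pool.Agent.Helper71.BM
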